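import Pool.Agent.W761.CB.Stm0

/-!
# CB-EBC: closure properties of the class of exponentially bounded vectors
-/

set_option autoImplicit false

open MeasureTheory
open scoped ENNReal

namespace Pool.Agent.W417.CB

open Pool.Agent.W761.CB

theorem ms_cs {X : Type} (x : X) (γ : Cf X) : ms (cs x γ) = x ::ₘ ms γ := by
  unfold ms cs
  simp only [List.ofFn_cons]
  rfl

theorem ms_ap {X : Type} (γ γ' : Cf X) : ms (ap γ γ') = ms γ + ms γ' := by
  unfold ms ap
  simp only [List.ofFn_fin_append, Multiset.coe_add]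

theorem nE_le {X : Type} [MeasurableSpace X] (ν : Measure X) [IsFiniteMeasure ν] (hL : S_LAM)
    (H : Multiset X → ℂ) (C c : ℝ) (hC : 0 ≤ C) (hc : 0 ≤ c)
    (h : ∀ S, ‖H S‖ ≤ C * c ^ Multiset.card S) :
    nE ν H ≤ ENNReal.ofReal (C ^ 2 * Real.exp (c ^ 2 * (ν Set.univ).toReal)) := by
  rw [← (hL X ν).2.2.1 (C ^ 2) (c ^ 2) (by positivity) (by positivity)]
  unfold nE
  refine lintegral_mono fun γ => ?_
  rw [← ofReal_norm_eq_enorm, ← ENNReal.ofReal_pow (norm_nonneg _)]
  apply ENNReal.ofReal_le_ofReal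
  calc ‖H (ms γ)‖ ^ 2 ≤ (C * c ^ Multiset.card (ms γ)) ^ 2 := by
        gcongr
        exact h _
    _ = C ^ 2 * (c ^ 2) ^ Multiset.card (ms γ) := by
        rw [mul_pow, ← pow_mul, ← pow_mul, mul_comm 2]

theorem proof_ebc : S_MS → S_LAM → S_EBC := by
  intro hM hL X _ ν _ F G hF hG
  obtain ⟨hcs, hap, -⟩ := hM X
  haveI hfin : IsFiniteMeasure (lam ν) := (hL X ν).2.1
  obtain ⟨C, c, hC, hc, hb⟩ := hF.bdd
  obtain ⟨C', c', hC', hc', hb'⟩ := hG.bdd
  have hc0 : 0 ≤ c := zero_le_one.trans hc
  -- joint measurability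
  have m1 : Measurable (fun p : X × Cf X => F (p.1 ::ₘ ms p.2)) := by
    have := hF.meas.comp hcs
    simpa only [Function.comp_def, ms_cs] using this
  have m2 : Measurable (fun p : (X × X) × Cf X => F (p.1.1 ::ₘ p.1.2 ::ₘ ms p.2)) := by
    have h1 : Measurable (fun p : (X × X) × Cf X => cs p.1.1 (cs p.1.2 p.2)) :=
      hcs.comp ((measurable_fst.comp measurable_fst).prodMk
        (hcs.comp ((measurable_snd.comp measurable_fst).prodMk measurable_snd)))
    have := hF.meas.comp h1
    simpa only [Function.comp_def, ms_cs] using this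
  have m3 : Measurable (fun p : Cf X × Cf X => F (ms p.1 + ms p.2)) := by
    have := hF.meas.comp hap
    simpa only [Function.comp_def, ms_ap] using this
  have b1 : ∀ x S, ‖F (x ::ₘ S)‖ ≤ (C * c) * c ^ Multiset.card S := by
    intro x S
    have := hb (x ::ₘ S)
    rw [Multiset.card_cons, pow_succ] at this
    calc _ ≤ _ := this
      _ = _ := by ring
  have b2 : ∀ x y S, ‖F (x ::ₘ y ::ₘ S)‖ ≤ (C * c * c) * c ^ Multiset.card S := by
    intro x y S
    have := b1 x (y ::ₘ S)
    rw [Multiset.card_cons, pow_succ] at this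
    calc _ ≤ _ := this
      _ = _ := by ring
  have hpow : ∀ n : ℕ, 1 ≤ c ^ n := fun n => one_le_pow₀ hc
  refine ⟨?_, ?_, ?_, ?_, m1, m2, m3, ⟨C * c, c, by positivity, hc, b1⟩, ?_, ?_, ?_, ?_⟩
  · intro x
    exact ⟨m1.comp (measurable_const.prodMk measurable_id), C * c, c, by positivity, hc, b1 x⟩
  · refine ⟨?_, C, c, hC, hc, ?_⟩
    · exact Complex.measurable_ofReal.comp hF.meas.norm
    · intro S
      unfold absv
      rw [Complex.norm_real, norm_norm]
      exact hb S
  · intro a b
    refine ⟨(hF.meas.const_mul a).add (hG.meas.const_mul b), ‖a‖ * C + ‖b‖ * C', max c c',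
      by positivity, hc.trans (le_max_left _ _), ?_⟩
    intro S
    have h1 : c ^ Multiset.card S ≤ max c c' ^ Multiset.card S :=
      pow_le_pow_left₀ hc0 (le_max_left _ _) _
    have h2 : c' ^ Multiset.card S ≤ max c c' ^ Multiset.card S :=
      pow_le_pow_left₀ (zero_le_one.trans hc') (le_max_right _ _) _
    calc ‖a * F S + b * G S‖ ≤ ‖a‖ * ‖F S‖ + ‖b‖ * ‖G S‖ := by
          refine (norm_add_le _ _).trans ?_
          rw [norm_mul, norm_mul]
      _ ≤ ‖a‖ * (C * max c c' ^ Multiset.card S) + ‖b‖ * (C' * max c c' ^ Multiset.card S) := by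
          gcongr
          · exact (hb S).trans (mul_le_mul_of_nonneg_left h1 hC)
          · exact (hb' S).trans (mul_le_mul_of_nonneg_left h2 hC')
      _ = _ := by ring
  · rintro g hg ⟨K, hK⟩
    refine ⟨?_, |K| * (C * c) * ν.real Set.univ, c, by positivity, hc, ?_⟩
    · have h1 : Measurable (fun p : X × Cf X => (g p.1 : ℂ) * F (p.1 ::ₘ ms p.2)) :=
        (Complex.measurable_ofReal.comp (hg.comp measurable_fst)).mul m1
      have h2 := StronglyMeasurable.integral_prod_left' (μ := ν) h1.stronglyMeasurable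
      exact h2.measurable
    · intro S
      unfold ag
      have h1 : ∀ᵐ x ∂ν, ‖(g x : ℂ) * F (x ::ₘ S)‖ ≤ |K| * (C * c * c ^ Multiset.card S) := by
        refine Filter.Eventually.of_forall fun x => ?_
        rw [norm_mul, Complex.norm_real, Real.norm_eq_abs]
        exact mul_le_mul ((hK x).trans (le_abs_self K)) (b1 x S) (norm_nonneg _) (abs_nonneg _)
      calc _ ≤ _ := norm_integral_le_of_norm_le_const h1
        _ = _ := by ring
  · have h1 : Measurable (fun p : X × Cf X => ‖F (p.1 ::ₘ ms p.2)‖ₑ ^ 2) := m1.enorm.pow_const 2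
    exact h1.lintegral_prod_right'
  · have h1 : Measurable (fun p : (X × X) × Cf X =>
        ‖F (p.1.1 ::ₘ ms p.2) - F (p.1.2 ::ₘ ms p.2)‖ₑ ^ 2) := by
      refine Measurable.pow_const (Measurable.enorm (Measurable.sub ?_ ?_)) 2
      · exact m1.comp ((measurable_fst.comp measurable_fst).prodMk measurable_snd)
      · exact m1.comp ((measurable_snd.comp measurable_fst).prodMk measurable_snd)
    exact h1.lintegral_prod_right'
  · have h1 : Measurable (fun p : (X × X) × Cf X => ‖F (p.1.1 ::ₘ p.1.2 ::ₘ ms p.2)‖ₑ ^ 2) :=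
      m2.enorm.pow_const 2
    exact h1.lintegral_prod_right'
  · refine ⟨ENNReal.ofReal ((2 * C * c * c) ^ 2 * Real.exp (c ^ 2 * (ν Set.univ).toReal)),
      ENNReal.ofReal_lt_top, ?_⟩
    intro x y
    refine ⟨?_, ?_, ?_⟩
    · refine nE_le ν hL _ _ c (by positivity) hc0 fun S => ?_
      refine (b1 x S).trans ?_
      gcongr
      nlinarith [mul_nonneg hC hc0]
    · refine nE_le ν hL _ _ c (by positivity) hc0 fun S => ?_
      refine (norm_sub_le _ _).trans ?_
      have h1 := b1 x S
      have h2 := b1 y S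
      have h3 : C * c * c ^ Multiset.card S ≤ C * c * c * c ^ Multiset.card S := by
        gcongr
        nlinarith [mul_nonneg hC hc0]
      nlinarith
    · refine nE_le ν hL _ _ c (by positivity) hc0 fun S => ?_
      refine (b2 x y S).trans ?_
      gcongr
      nlinarith [mul_nonneg hC hc0]

end Pool.Agent.W417.CB
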